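import Mathlib

namespace Pool.Agent.V11199.SD

open Finset Polynomial

/-- product over powers of a primitive root -/
lemma prod_range_prim {s : ℕ} (hs : 0 < s) {z : ℂ} (hz : IsPrimitiveRoot z s) :
    ∏ i ∈ range s, (X + C (z ^ i)) = (X : ℂ[X]) ^ s - C ((-1) ^ s) := by
  classical
  have himg : (range s).image (fun i => z ^ i) = nthRootsFinset s (1 : ℂ) := by
    apply Finset.eq_of_subset_of_card_le
    · intro w hw
      obtain ⟨i, hi, rfl⟩ := Finset.mem_image.mp hw
      rw [mem_nthRootsFinset hs]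
      rw [← pow_mul, mul_comm, pow_mul, hz.pow_eq_one, one_pow]
    · rw [hz.card_nthRootsFinset, Finset.card_image_of_injOn, card_range]
      intro i hi j hj hij
      exact hz.pow_inj (by simpa using hi) (by simpa using hj) hij
  have h1 : (X : ℂ[X]) ^ s - 1 = ∏ i ∈ range s, (X - C (z ^ i)) := by
    rw [X_pow_sub_one_eq_prod hs hz, ← himg, Finset.prod_image]
    intro i hi j hj hij
    exact hz.pow_inj (by simpa using hi) (by simpa using hj) hij
  have h2 := congrArg (fun p : ℂ[X] => p.comp (-X)) h1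
  simp only [sub_comp, pow_comp, X_comp, one_comp, Polynomial.prod_comp, C_comp] at h2
  have h3 : ∏ i ∈ range s, (-X - C (z ^ i) : ℂ[X]) = (-1) ^ s * ∏ i ∈ range s, (X + C (z ^ i)) := by
    have : ∀ i ∈ range s, (-X - C (z ^ i) : ℂ[X]) = (-1) * (X + C (z ^ i)) := by
      intro i _; ring
    rw [Finset.prod_congr rfl this, Finset.prod_mul_distrib, Finset.prod_const, card_range]
  rw [h3] at h2
  have h4 : ((-1 : ℂ[X]) ^ s) * ((-1 : ℂ[X]) ^ s) = 1 := by
    rw [← mul_pow]; simp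
  calc ∏ i ∈ range s, (X + C (z ^ i))
      = (-1 : ℂ[X]) ^ s * ((-1 : ℂ[X]) ^ s * ∏ i ∈ range s, (X + C (z ^ i))) := by
        rw [← mul_assoc, h4, one_mul]
    _ = (-1 : ℂ[X]) ^ s * ((-X) ^ s - 1) := by rw [h2]
    _ = X ^ s - C ((-1) ^ s) := by
        rw [neg_pow (X : ℂ[X]) s, mul_sub, ← mul_assoc, h4, one_mul, mul_one]
        simp

lemma prod_range_mul_prim {s : ℕ} (hs : 0 < s) {z : ℂ} (hz : IsPrimitiveRoot z s) (M : ℕ) :
    ∏ i ∈ range (s * M), (X + C (z ^ i)) = ((X : ℂ[X]) ^ s - C ((-1) ^ s)) ^ M := by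
  induction M with
  | zero => simp
  | succ M ih =>
    rw [Nat.mul_succ, Finset.prod_range_add, ih, pow_succ]
    congr 1
    rw [← prod_range_prim hs hz]
    apply Finset.prod_congr rfl
    intro i _
    rw [pow_add, pow_mul, hz.pow_eq_one, one_pow, one_mul]

lemma prim_of_order {n : ℕ} [NeZero n] (a : ZMod n) :
    IsPrimitiveRoot (ZMod.stdAddChar a : ℂ) (addOrderOf a) := by
  constructor
  · rw [← AddChar.map_nsmul_eq_pow, addOrderOf_nsmul_eq_zero, AddChar.map_zero_eq_one]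
  · intro l hl
    rw [← AddChar.map_nsmul_eq_pow] at hl
    rw [← (ZMod.stdAddChar (N := n)).map_zero_eq_one] at hl
    exact addOrderOf_dvd_of_nsmul_eq_zero (ZMod.injective_stdAddChar hl)

lemma order_dvd {n : ℕ} [NeZero n] (a : ZMod n) : addOrderOf a ∣ n := by
  apply addOrderOf_dvd_of_nsmul_eq_zero
  simp

lemma order_pos {n : ℕ} [NeZero n] (a : ZMod n) : 0 < addOrderOf a :=
  addOrderOf_pos a

lemma psi_mul {n : ℕ} [NeZero n] (a t : ZMod n) :
    (ZMod.stdAddChar (a * t) : ℂ) = (ZMod.stdAddChar a : ℂ) ^ t.val := by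
  rw [← AddChar.map_nsmul_eq_pow]
  congr 1
  rw [nsmul_eq_mul, ZMod.natCast_zmod_val, mul_comm]

lemma prod_all {n : ℕ} [NeZero n] (a : ZMod n) :
    ∏ t : ZMod n, (X + C (ZMod.stdAddChar (a * t) : ℂ))
      = ((X : ℂ[X]) ^ (addOrderOf a) - C ((-1) ^ (addOrderOf a))) ^ (n / addOrderOf a) := by
  have h1 : ∏ t : ZMod n, (X + C (ZMod.stdAddChar (a * t) : ℂ))
      = ∏ i ∈ range n, (X + C ((ZMod.stdAddChar a : ℂ) ^ i)) := by
    apply Finset.prod_nbij' (fun t : ZMod n => (t.val : ℕ)) (fun i : ℕ => (i : ZMod n))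
    · intro t _; simpa using ZMod.val_lt t
    · intro i _; simp
    · intro t _; simp
    · intro i hi; exact ZMod.val_cast_of_lt (by simpa using hi)
    · intro t _; rw [psi_mul]
  rw [h1]
  have h2 : addOrderOf a * (n / addOrderOf a) = n := Nat.mul_div_cancel' (order_dvd a)
  have h3 := prod_range_mul_prim (order_pos a) (prim_of_order a) (n / addOrderOf a)
  rw [h2] at h3
  exact h3

/-- elementary symmetric sums of the values of the character -/
noncomputable def pj (n : ℕ) [NeZero n] (a : ZMod n) (j : ℕ) : ℂ :=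
  ∑ T ∈ powersetCard j (univ : Finset (ZMod n)), ∏ t ∈ T, (ZMod.stdAddChar (a * t) : ℂ)

lemma pj_eq {n : ℕ} [NeZero n] (a : ZMod n) {j : ℕ} (hj : j ≤ n) :
    pj n a j = if addOrderOf a ∣ j then
      (-1 : ℂ) ^ (j / addOrderOf a) * (-1) ^ j * ((n / addOrderOf a).choose (j / addOrderOf a) : ℂ)
      else 0 := by
  have hs := order_pos a
  have hd := order_dvd a
  obtain ⟨M, hM⟩ := hd
  have hMd : n / addOrderOf a = M := Nat.div_eq_of_eq_mul_right hs hM
  have h1 : pj n a j = (∏ t : ZMod n, (X + C (ZMod.stdAddChar (a * t) : ℂ))).coeff (n - j) := by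
    rw [Finset.prod_X_add_C_coeff _ _ (by simp [ZMod.card])]
    unfold pj
    simp only [card_univ, ZMod.card]
    congr 2
    omega
  rw [h1, prod_all, hMd]
  set s := addOrderOf a with hsdef
  have h2 : ((X : ℂ[X]) ^ s - C ((-1) ^ s)) ^ M = expand ℂ s ((X + C (-(-1) ^ s)) ^ M) := by
    simp [map_pow, expand_X, C_neg, ← sub_eq_add_neg]
  rw [h2, coeff_expand hs]
  have h3 : (s ∣ n - j) ↔ s ∣ j := by
    rw [Nat.dvd_sub_iff_right hj ⟨M, hM⟩]
  by_cases hsj : s ∣ j
  · rw [if_pos (h3.mpr hsj), if_pos hsj]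
    obtain ⟨l, hl⟩ := hsj
    have hlM : l ≤ M := by
      rw [hM, hl] at hj
      exact Nat.le_of_mul_le_mul_left hj hs
    have h4 : (n - j) / s = M - l := by
      rw [hM, hl, ← Nat.mul_sub, Nat.mul_div_cancel_left _ hs]
    have h5 : j / s = l := by rw [hl, Nat.mul_div_cancel_left _ hs]
    rw [h4, h5, coeff_X_add_C_pow, Nat.choose_symm hlM]
    congr 1
    have : M - (M - l) = l := by omega
    rw [this, hl, neg_pow, pow_mul]
  · rw [if_neg (fun h => hsj (h3.mp h)), if_neg hsj]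

/-- elementary symmetric sums avoiding y -/
noncomputable def qj (n : ℕ) [NeZero n] (a y : ZMod n) (j : ℕ) : ℂ :=
  ∑ T ∈ powersetCard j ((univ : Finset (ZMod n)).erase y),
    ∏ t ∈ T, (ZMod.stdAddChar (a * t) : ℂ)

lemma filter_not_mem {n : ℕ} [NeZero n] (y : ZMod n) (j : ℕ) :
    (powersetCard j (univ : Finset (ZMod n))).filter (fun T => ¬ y ∈ T)
      = powersetCard j ((univ : Finset (ZMod n)).erase y) := by
  ext T
  simp only [mem_filter, mem_powersetCard, subset_univ, true_and]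
  constructor
  · rintro ⟨h1, h2⟩
    refine ⟨fun t ht => ?_, h1⟩
    rw [mem_erase]
    exact ⟨fun h => h2 (h ▸ ht), mem_univ _⟩
  · rintro ⟨h1, h2⟩
    exact ⟨h2, fun h => by have := h1 h; simp at this⟩

lemma pj_succ {n : ℕ} [NeZero n] (a y : ZMod n) (j : ℕ) :
    pj n a (j + 1) = qj n a y (j + 1) + (ZMod.stdAddChar (a * y) : ℂ) * qj n a y j := by
  have h0 : y ∉ (univ : Finset (ZMod n)).erase y := by simp
  have h1 : (univ : Finset (ZMod n)) = insert y ((univ : Finset (ZMod n)).erase y) := by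
    rw [Finset.insert_erase (mem_univ y)]
  unfold pj qj
  conv_lhs => rw [h1]
  rw [Finset.powersetCard_succ_insert h0, Finset.sum_union]
  · congr 1
    rw [Finset.sum_image, Finset.mul_sum]
    · apply Finset.sum_congr rfl
      intro T hT
      rw [Finset.prod_insert]
      intro hy
      exact h0 ((mem_powersetCard.mp hT).1 hy)
    · intro T hT T' hT' h
      have e1 : y ∉ T := fun hy => h0 ((mem_powersetCard.mp hT).1 hy)
      have e2 : y ∉ T' := fun hy => h0 ((mem_powersetCard.mp hT').1 hy)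
      have h' : insert y T = insert y T' := h
      rw [← Finset.erase_insert e1, h', Finset.erase_insert e2]
  · rw [Finset.disjoint_left]
    intro T hT hT'
    obtain ⟨S, hS, rfl⟩ := Finset.mem_image.mp hT'
    exact h0 ((mem_powersetCard.mp hT).1 (mem_insert_self _ _))

lemma pj_split {n : ℕ} [NeZero n] (a y : ZMod n) (j : ℕ) :
    ∑ T ∈ (powersetCard (j + 1) (univ : Finset (ZMod n))).filter (fun T => y ∈ T),
      ∏ t ∈ T, (ZMod.stdAddChar (a * t) : ℂ) = (ZMod.stdAddChar (a * y) : ℂ) * qj n a y j := by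
  have h1 := Finset.sum_filter_add_sum_filter_not (powersetCard (j + 1) (univ : Finset (ZMod n)))
    (fun T => y ∈ T) (fun T => ∏ t ∈ T, (ZMod.stdAddChar (a * t) : ℂ))
  rw [filter_not_mem] at h1
  have h2 := pj_succ a y j
  unfold pj at h2
  rw [h2] at h1
  have h3 : ∑ T ∈ powersetCard (j + 1) ((univ : Finset (ZMod n)).erase y),
    ∏ t ∈ T, (ZMod.stdAddChar (a * t) : ℂ) = qj n a y (j + 1) := rfl
  rw [h3] at h1
  linear_combination h1

lemma char_pow_order {n : ℕ} [NeZero n] (a y : ZMod n) :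
    (ZMod.stdAddChar (a * y) : ℂ) ^ (addOrderOf a) = 1 := by
  rw [← AddChar.map_nsmul_eq_pow]
  have : addOrderOf a • (a * y) = 0 := by
    rw [← smul_mul_assoc, addOrderOf_nsmul_eq_zero, zero_mul]
  rw [this, AddChar.map_zero_eq_one]

lemma qj_eq {n : ℕ} [NeZero n] (a y : ZMod n) : ∀ {j : ℕ}, j + 1 ≤ n →
    qj n a y j = (-(ZMod.stdAddChar (a * y) : ℂ)) ^ j * (-1) ^ (j / addOrderOf a) *
      ((n / addOrderOf a - 1).choose (j / addOrderOf a) : ℂ) := by
  have hs := order_pos a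
  obtain ⟨M, hM⟩ := order_dvd a
  have hMd : n / addOrderOf a = M := Nat.div_eq_of_eq_mul_right hs hM
  have hc := char_pow_order a y
  rw [hMd]
  have hM1 : 1 ≤ M := by
    rcases Nat.eq_zero_or_pos M with h | h
    · exfalso
      rw [h, mul_zero] at hM
      exact (NeZero.ne n) hM
    · exact h
  intro j
  induction j with
  | zero => intro _; simp [qj]
  | succ j ih =>
    intro hj
    have h1 := pj_succ a y j
    rw [ih (by omega), pj_eq a (by omega : j + 1 ≤ n), hMd] at h1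
    set c := (ZMod.stdAddChar (a * y) : ℂ) with hcdef
    set s := addOrderOf a with hsdef
    by_cases hd : s ∣ j + 1
    · rw [if_pos hd] at h1
      have e1 : (j + 1) / s = j / s + 1 := Nat.succ_div_of_dvd hd
      rw [e1] at h1 ⊢
      have e2 : c ^ (j + 1) = 1 := by
        obtain ⟨l, hl⟩ := hd
        rw [hl, pow_mul, hc, one_pow]
      have e3 : (-c) ^ (j + 1) = (-1) ^ (j + 1) := by
        rw [neg_pow, e2, mul_one]
      have e4 : c * (-c) ^ j = - (-1) ^ (j + 1) := by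
        rw [← e3, pow_succ]; ring
      obtain ⟨M', rfl⟩ : ∃ M', M = M' + 1 := ⟨M - 1, by omega⟩
      rw [Nat.choose_succ_succ] at h1
      simp only [Nat.add_sub_cancel] at h1 ⊢
      rw [e3]
      push_cast at h1
      have e5 : qj n a y (j + 1) = (-1) ^ (j / s + 1) * (-1) ^ (j + 1) *
          ((M'.choose (j / s) : ℂ) + (M'.choose (j / s + 1) : ℂ))
          - (c * (-c) ^ j) * ((-1) ^ (j / s) * (M'.choose (j / s) : ℂ)) := by
        linear_combination -h1
      rw [e5, e4]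
      ring
    · rw [if_neg hd] at h1
      have e1 : (j + 1) / s = j / s := Nat.succ_div_of_not_dvd hd
      rw [e1]
      have e5 : qj n a y (j + 1) = - (c * ((-c) ^ j * (-1) ^ (j / s) * ((M - 1).choose (j / s) : ℂ))) := by
        linear_combination -h1
      rw [e5, pow_succ]
      ring

/-- the value depending only on the order -/
noncomputable def Ev (n k : ℕ) (s : ℕ) : ℝ :=
  (-1 : ℝ) ^ (k - 1 + (k - 1) / s) * ((n / s - 1).choose ((k - 1) / s) : ℝ)

lemma char_sum {n : ℕ} [NeZero n] {ι : Type*} [DecidableEq ι] (T : Finset ι) (f : ι → ZMod n) :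
    (ZMod.stdAddChar (∑ t ∈ T, f t) : ℂ) = ∏ t ∈ T, (ZMod.stdAddChar (f t) : ℂ) := by
  induction T using Finset.induction_on with
  | empty => simp
  | insert a T ha ih => rw [Finset.sum_insert ha, Finset.prod_insert ha, AddChar.map_add_eq_mul, ih]

lemma F_eq {n k : ℕ} [NeZero n] (hk1 : 1 ≤ k) (hkn : k ≤ n) (a y : ZMod n) :
    ∑ T ∈ (powersetCard k (univ : Finset (ZMod n))).filter (fun T => y ∈ T),
      (ZMod.stdAddChar (a * ∑ t ∈ T, t) : ℂ)
      = (Ev n k (addOrderOf a) : ℂ) * (ZMod.stdAddChar (a * (k : ZMod n) * y) : ℂ) := by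
  obtain ⟨j, rfl⟩ : ∃ j, k = j + 1 := ⟨k - 1, by omega⟩
  have h0 : ∀ T ∈ (powersetCard (j + 1) (univ : Finset (ZMod n))).filter (fun T => y ∈ T),
      (ZMod.stdAddChar (a * ∑ t ∈ T, t) : ℂ) = ∏ t ∈ T, (ZMod.stdAddChar (a * t) : ℂ) := by
    intro T _
    rw [Finset.mul_sum, char_sum]
  rw [Finset.sum_congr rfl h0, pj_split, qj_eq a y hkn]
  have h1 : (ZMod.stdAddChar (a * ((j + 1 : ℕ) : ZMod n) * y) : ℂ)
      = (ZMod.stdAddChar (a * y) : ℂ) ^ (j + 1) := by
    rw [← AddChar.map_nsmul_eq_pow, nsmul_eq_mul]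
    congr 1
    ring
  rw [h1]
  unfold Ev
  rw [show j + 1 - 1 = j from rfl]
  push_cast
  rw [neg_pow (ZMod.stdAddChar (a * y) : ℂ) j, pow_add]
  ring

end Pool.Agent.V11199.SD
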