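import Mathlib
import Pool.Agent.V11199.SD.Poly

namespace Pool.Agent.V11199.SD

open Finset

/-- all k-element subsets of Z_n with sum x -/
def blocks (n k : ℕ) [NeZero n] (x : ZMod n) : Finset (Finset (ZMod n)) :=
  (powersetCard k (univ : Finset (ZMod n))).filter (fun T => ∑ t ∈ T, t = x)

/-- number of blocks containing y -/
def deg (n k : ℕ) [NeZero n] (x y : ZMod n) : ℕ :=
  ((blocks n k x).filter (fun T => y ∈ T)).card

lemma char_sum_eq {n : ℕ} [NeZero n] (b : ZMod n) :
    ∑ a : ZMod n, (ZMod.stdAddChar (a * b) : ℂ) = if b = 0 then (n : ℂ) else 0 := by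
  rw [AddChar.sum_mulShift b (ZMod.isPrimitive_stdAddChar n)]
  simp [ZMod.card]

lemma deg_fourier {n k : ℕ} [NeZero n] (hk1 : 1 ≤ k) (hkn : k ≤ n) (x y : ZMod n) :
    (n : ℂ) * (deg n k x y : ℂ) = ∑ a : ZMod n, (ZMod.stdAddChar (-(a * x)) : ℂ) *
      (Ev n k (addOrderOf a) : ℂ) * (ZMod.stdAddChar (a * (k : ZMod n) * y) : ℂ) := by
  have h1 : ∀ a : ZMod n, (ZMod.stdAddChar (-(a * x)) : ℂ) *
      (Ev n k (addOrderOf a) : ℂ) * (ZMod.stdAddChar (a * (k : ZMod n) * y) : ℂ)
      = ∑ T ∈ (powersetCard k (univ : Finset (ZMod n))).filter (fun T => y ∈ T),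
        (ZMod.stdAddChar (a * (∑ t ∈ T, t - x)) : ℂ) := by
    intro a
    rw [mul_assoc, ← F_eq hk1 hkn a y, Finset.mul_sum]
    apply Finset.sum_congr rfl
    intro T _
    rw [← AddChar.map_add_eq_mul]
    congr 1
    ring
  rw [Finset.sum_congr rfl (fun a _ => h1 a), Finset.sum_comm]
  simp_rw [char_sum_eq]
  rw [← Finset.sum_filter, Finset.sum_const, nsmul_eq_mul, mul_comm]
  congr 2
  unfold deg blocks
  rw [Finset.filter_filter, Finset.filter_filter]
  congr 1
  ext T
  simp only [mem_filter, sub_eq_zero]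
  tauto

/-- the Fourier coefficient of the degree function -/
noncomputable def hb (n k : ℕ) [NeZero n] (x b : ZMod n) : ℂ :=
  ∑ a ∈ (univ : Finset (ZMod n)).filter (fun a => a * (k : ZMod n) = b),
    (ZMod.stdAddChar (-(a * x)) : ℂ) * (Ev n k (addOrderOf a) : ℂ)

lemma n_ne {n : ℕ} [NeZero n] : (n : ℂ) ≠ 0 := by
  exact_mod_cast NeZero.ne n

lemma deg_coeff {n k : ℕ} [NeZero n] (hk1 : 1 ≤ k) (hkn : k ≤ n) (x b : ZMod n) :
    ∑ y : ZMod n, (deg n k x y : ℂ) * (ZMod.stdAddChar (-(y * b)) : ℂ) = hb n k x b := by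
  have h1 : (n : ℂ) * ∑ y : ZMod n, (deg n k x y : ℂ) * (ZMod.stdAddChar (-(y * b)) : ℂ)
      = (n : ℂ) * hb n k x b := by
    rw [Finset.mul_sum]
    have h2 : ∀ y : ZMod n, (n : ℂ) * ((deg n k x y : ℂ) * (ZMod.stdAddChar (-(y * b)) : ℂ))
        = ∑ a : ZMod n, (ZMod.stdAddChar (-(a * x)) : ℂ) *
          (Ev n k (addOrderOf a) : ℂ) * (ZMod.stdAddChar (y * (a * (k : ZMod n) - b)) : ℂ) := by
      intro y
      rw [← mul_assoc, deg_fourier hk1 hkn, Finset.sum_mul]
      apply Finset.sum_congr rfl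
      intro a _
      rw [mul_assoc, ← AddChar.map_add_eq_mul]
      congr 2
      ring
    rw [Finset.sum_congr rfl (fun y _ => h2 y), Finset.sum_comm]
    simp_rw [← Finset.mul_sum, char_sum_eq, mul_ite, mul_zero]
    rw [← Finset.sum_filter]
    unfold hb
    rw [Finset.mul_sum]
    have h3 : (univ : Finset (ZMod n)).filter (fun a => a * (k : ZMod n) - b = 0)
        = (univ : Finset (ZMod n)).filter (fun a => a * (k : ZMod n) = b) := by
      ext a; simp [sub_eq_zero]
    rw [h3]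
    apply Finset.sum_congr rfl
    intro a _
    ring
  exact mul_left_cancel₀ n_ne h1

lemma const_iff {n k : ℕ} [NeZero n] (hk1 : 1 ≤ k) (hkn : k ≤ n) (x : ZMod n) :
    (∃ r : ℕ, ∀ y : ZMod n, deg n k x y = r) ↔ ∀ b : ZMod n, b ≠ 0 → hb n k x b = 0 := by
  constructor
  · rintro ⟨r, hr⟩ b hb0
    rw [← deg_coeff hk1 hkn x b]
    simp_rw [hr]
    rw [← Finset.mul_sum]
    have h1 : ∑ y : ZMod n, (ZMod.stdAddChar (-(y * b)) : ℂ)
        = ∑ y : ZMod n, (ZMod.stdAddChar (y * (-b)) : ℂ) := by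
      apply Finset.sum_congr rfl
      intro y _
      congr 1
      ring
    rw [h1, char_sum_eq, if_neg (by simpa using hb0), mul_zero]
  · intro h
    refine ⟨deg n k x 0, fun y => ?_⟩
    have key : ∀ y : ZMod n, (n : ℂ) * (deg n k x y : ℂ) = hb n k x 0 := by
      intro y
      rw [deg_fourier hk1 hkn]
      rw [← Finset.sum_fiberwise (univ : Finset (ZMod n)) (fun a => a * (k : ZMod n))]
      have h2 : ∀ b : ZMod n, ∑ a ∈ (univ : Finset (ZMod n)).filter (fun a => a * (k : ZMod n) = b),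
          (ZMod.stdAddChar (-(a * x)) : ℂ) *
          (Ev n k (addOrderOf a) : ℂ) * (ZMod.stdAddChar (a * (k : ZMod n) * y) : ℂ)
          = hb n k x b * (ZMod.stdAddChar (b * y) : ℂ) := by
        intro b
        unfold hb
        rw [Finset.sum_mul]
        apply Finset.sum_congr rfl
        intro a ha
        rw [(mem_filter.mp ha).2]
      rw [Finset.sum_congr rfl (fun b _ => h2 b)]
      rw [Finset.sum_eq_single (0 : ZMod n)]
      · simp
      · intro b _ hb0
        rw [h b hb0, zero_mul]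
      · simp
    have h3 := (key y).trans (key 0).symm
    have h4 := mul_left_cancel₀ n_ne h3
    exact_mod_cast h4

/-- shift trick -/
lemma hb_zero_of_shift {n k : ℕ} [NeZero n] (x b u : ZMod n) (hu : u * (k : ZMod n) = 0)
    (hux : u * x ≠ 0)
    (hE : ∀ a : ZMod n, a * (k : ZMod n) = b →
      Ev n k (addOrderOf (a + u)) = Ev n k (addOrderOf a)) :
    hb n k x b = 0 := by
  have h1 : hb n k x b = (ZMod.stdAddChar (-(u * x)) : ℂ) * hb n k x b := by
    conv_lhs => unfold hb
    have h2 : ∑ a ∈ (univ : Finset (ZMod n)).filter (fun a => a * (k : ZMod n) = b),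
        (ZMod.stdAddChar (-(a * x)) : ℂ) * (Ev n k (addOrderOf a) : ℂ)
        = ∑ a ∈ (univ : Finset (ZMod n)).filter (fun a => a * (k : ZMod n) = b),
        (ZMod.stdAddChar (-((a + u) * x)) : ℂ) * (Ev n k (addOrderOf (a + u)) : ℂ) := by
      symm
      apply Finset.sum_nbij' (fun a => a + u) (fun a => a - u)
      · intro a ha
        rw [mem_filter] at ha ⊢
        refine ⟨mem_univ _, ?_⟩
        rw [add_mul, ha.2, hu, add_zero]
      · intro a ha
        rw [mem_filter] at ha ⊢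
        refine ⟨mem_univ _, ?_⟩
        rw [sub_mul, ha.2, hu, sub_zero]
      · intro a _; ring
      · intro a _; ring
      · intro a _; rfl
    rw [h2]
    unfold hb
    rw [Finset.mul_sum]
    apply Finset.sum_congr rfl
    intro a ha
    rw [hE a (mem_filter.mp ha).2, ← mul_assoc, ← AddChar.map_add_eq_mul]
    congr 2
    ring
  have h3 : (ZMod.stdAddChar (-(u * x)) : ℂ) ≠ 1 := by
    intro h
    rw [← (ZMod.stdAddChar (N := n)).map_zero_eq_one] at h
    have := ZMod.injective_stdAddChar h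
    exact hux (by simpa using this)
  have h4 : ((ZMod.stdAddChar (-(u * x)) : ℂ) - 1) * hb n k x b = 0 := by
    linear_combination -h1
  rcases mul_eq_zero.mp h4 with h5 | h5
  · exact absurd (sub_eq_zero.mp h5) h3
  · exact h5

end Pool.Agent.V11199.SD
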