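import Mathlib
import Pool.Agent.V11199.SD.Fourier

namespace Pool.Agent.V11199.SD

open Finset

lemma mul_k_zero {n : ℕ} [NeZero n] (w : ZMod n) (k : ℕ) :
    w * (k : ZMod n) = 0 ↔ addOrderOf w ∣ k := by
  rw [mul_comm, ← nsmul_eq_mul, addOrderOf_dvd_iff_nsmul_eq_zero]

lemma mul_x_zero {n : ℕ} [NeZero n] (w x : ZMod n) :
    w * x = 0 ↔ addOrderOf w ∣ x.val := by
  rw [← mul_k_zero, ZMod.natCast_zmod_val]

lemma order_elt {n : ℕ} [NeZero n] {c : ℕ} (hc : c ∣ n) :
    addOrderOf (((n / c : ℕ)) : ZMod n) = c := by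
  have hn : n ≠ 0 := NeZero.ne n
  rw [ZMod.addOrderOf_coe _ hn]
  have h1 : n.gcd (n / c) = n / c := Nat.gcd_eq_right (Nat.div_dvd_of_dvd hc)
  rw [h1]
  exact Nat.div_div_self hc hn

lemma card_ord_dvd {n : ℕ} [NeZero n] {c : ℕ} (hc : c ∣ n) :
    ((univ : Finset (ZMod n)).filter (fun w => addOrderOf w ∣ c)).card = c := by
  have hn : n ≠ 0 := NeZero.ne n
  have hc0 : 0 < c := Nat.pos_of_ne_zero (fun h => hn (by simpa [h] using hc))
  obtain ⟨m, hm⟩ := hc
  have hm0 : 0 < m := Nat.pos_of_ne_zero (fun h => hn (by rw [hm, h, mul_zero]))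
  have himg : (univ : Finset (ZMod n)).filter (fun w => addOrderOf w ∣ c)
      = (range c).image (fun j : ℕ => ((j * m : ℕ) : ZMod n)) := by
    ext w
    simp only [mem_filter, mem_univ, true_and, mem_image, mem_range]
    constructor
    · intro hw
      rw [← mul_k_zero] at hw
      have h1 : ((w.val * c : ℕ) : ZMod n) = 0 := by
        push_cast
        rw [ZMod.natCast_zmod_val]; exact hw
      rw [ZMod.natCast_eq_zero_iff] at h1
      have h2 : m ∣ w.val := by
        have e : m * c = n := by rw [mul_comm]; exact hm.symm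
        exact Nat.dvd_of_mul_dvd_mul_right hc0 ((dvd_of_eq e).trans h1)
      obtain ⟨j, hj⟩ := h2
      refine ⟨j, ?_, ?_⟩
      · have h3 := ZMod.val_lt w
        rw [hj] at h3
        have h4 : m * j < m * c := by
          calc m * j < n := h3
            _ = m * c := by rw [hm]; ring
        exact Nat.lt_of_mul_lt_mul_left h4
      · rw [mul_comm, ← hj, ZMod.natCast_zmod_val]
    · rintro ⟨j, hj, rfl⟩
      rw [← mul_k_zero]
      have : ((j * m : ℕ) : ZMod n) * (c : ZMod n) = ((j * n : ℕ) : ZMod n) := by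
        rw [← Nat.cast_mul]
        congr 1
        calc j * m * c = j * (c * m) := by ring
          _ = j * n := by rw [← hm]
      rw [this]
      push_cast
      simp
  rw [himg, Finset.card_image_of_injOn, card_range]
  intro i hi j hj hij
  simp only [coe_range, Set.mem_Iio] at hi hj
  have hlt : ∀ l, l < c → l * m < n := by
    intro l hl
    calc l * m < c * m := Nat.mul_lt_mul_of_pos_right hl hm0
      _ = n := hm.symm
  have h1 := congrArg ZMod.val hij
  simp only at h1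
  rw [ZMod.val_cast_of_lt (hlt i hi), ZMod.val_cast_of_lt (hlt j hj)] at h1
  exact Nat.eq_of_mul_eq_mul_right hm0 h1

lemma order_lift {n : ℕ} [NeZero n] (a : ZMod n) {g q v : ℕ} (hg : q ^ v ∣ g)
    (hq : q ∣ addOrderOf (g • a)) : q ^ (v + 1) ∣ addOrderOf a := by
  rw [addOrderOf_nsmul] at hq
  set t := addOrderOf a with ht
  have h1 : q * Nat.gcd t g ∣ t := by
    have h2 : Nat.gcd t g ∣ t := Nat.gcd_dvd_left _ _
    obtain ⟨l, hl⟩ := hq
    refine ⟨l, ?_⟩
    have h3 := Nat.div_mul_cancel h2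
    rw [hl] at h3
    calc t = q * l * Nat.gcd t g := h3.symm
      _ = q * Nat.gcd t g * l := by ring
  have h2 : ∀ e, e ≤ v + 1 → q ^ e ∣ t := by
    intro e
    induction e with
    | zero => intro _; simp
    | succ e ih =>
      intro he
      have h3 := ih (by omega)
      have h4 : q ^ e ∣ g := (pow_dvd_pow q (by omega)).trans hg
      have h5 : q ^ e ∣ Nat.gcd t g := Nat.dvd_gcd h3 h4
      rw [pow_succ, mul_comm]
      exact (Nat.mul_dvd_mul_left q h5).trans h1
  exact h2 (v + 1) le_rfl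

lemma order_shift {n : ℕ} [NeZero n] (a u : ZMod n) {g q v : ℕ} (hg : q ^ v ∣ g)
    (hq : q ∣ addOrderOf (g • a)) (hu : addOrderOf u ∣ q ^ v) :
    addOrderOf (a + u) = addOrderOf a := by
  have key : ∀ a u : ZMod n, q ∣ addOrderOf (g • a) → addOrderOf u ∣ q ^ v →
      addOrderOf (a + u) ∣ addOrderOf a := by
    intro a u h1 h2
    apply addOrderOf_dvd_of_nsmul_eq_zero
    rw [nsmul_add, addOrderOf_nsmul_eq_zero, zero_add]
    rw [← addOrderOf_dvd_iff_nsmul_eq_zero]
    exact (h2.trans (pow_dvd_pow q (Nat.le_succ v))).trans (order_lift a hg h1)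
  apply Nat.dvd_antisymm (key a u hq hu)
  have h1 : g • (a + u) = g • a := by
    rw [nsmul_add]
    have : g • u = 0 := by
      rw [← addOrderOf_dvd_iff_nsmul_eq_zero]; exact hu.trans hg
    rw [this, add_zero]
  have h2 := key (a + u) (-u) (by rw [h1]; exact hq) (by rw [addOrderOf_neg]; exact hu)
  simpa using h2

/-- prime data -/
lemma prime_data {n k q : ℕ} (hn : n ≠ 0) (hk : k ≠ 0) (hq : q.Prime) (hqm : q ∣ n / Nat.gcd n k) :
    q ^ (k.factorization q + 1) ∣ n ∧ q ^ (k.factorization q) ∣ Nat.gcd n k ∧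
      ¬ q ^ (k.factorization q + 1) ∣ Nat.gcd n k ∧ ¬ q ^ (k.factorization q + 1) ∣ k := by
  set v := k.factorization q with hv
  have hk1 : ¬ q ^ (v + 1) ∣ k := Nat.pow_succ_factorization_not_dvd hk hq
  have hk2 : q ^ v ∣ k := Nat.ordProj_dvd k q
  set g := Nat.gcd n k with hg
  have hgk : g ∣ k := Nat.gcd_dvd_right _ _
  have hgn : g ∣ n := Nat.gcd_dvd_left _ _
  obtain ⟨m, hm⟩ := hgn
  have hg0 : 0 < g := Nat.pos_of_ne_zero (fun h => hn (by rw [hm, h, zero_mul]))
  have hmd : n / g = m := Nat.div_eq_of_eq_mul_right hg0 hm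
  rw [hmd] at hqm
  have h1 : ∀ e, e ≤ v + 1 → q ^ e ∣ n := by
    intro e
    induction e with
    | zero => intro _; simp
    | succ e ih =>
      intro he
      have h2 := ih (by omega)
      have h3 : q ^ e ∣ k := (pow_dvd_pow q (by omega)).trans hk2
      have h4 : q ^ e ∣ g := Nat.dvd_gcd h2 h3
      rw [pow_succ, hm]
      exact Nat.mul_dvd_mul h4 hqm
  refine ⟨h1 (v + 1) le_rfl, Nat.dvd_gcd (h1 v (by omega)) hk2, fun h => hk1 (h.trans hgk), hk1⟩

lemma ord_dvd_k_iff {n : ℕ} [NeZero n] (w : ZMod n) (k : ℕ) :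
    addOrderOf w ∣ k ↔ addOrderOf w ∣ Nat.gcd n k :=
  ⟨fun h => Nat.dvd_gcd (order_dvd w) h, fun h => h.trans (Nat.gcd_dvd_right _ _)⟩

/-- all elements of a fibre have the same multiple by g -/
lemma fibre_g {n k : ℕ} [NeZero n] {a a' : ZMod n} (h : a * (k : ZMod n) = a' * (k : ZMod n)) :
    Nat.gcd n k • a = Nat.gcd n k • a' := by
  have h1 : (a - a') * (k : ZMod n) = 0 := by rw [sub_mul, h, sub_self]
  rw [mul_k_zero, ord_dvd_k_iff, addOrderOf_dvd_iff_nsmul_eq_zero, nsmul_sub] at h1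
  exact sub_eq_zero.mp h1

lemma g_ne {n k : ℕ} [NeZero n] {a : ZMod n} (h : a * (k : ZMod n) ≠ 0) :
    Nat.gcd n k • a ≠ 0 := by
  intro h1
  rw [← addOrderOf_dvd_iff_nsmul_eq_zero, ← ord_dvd_k_iff, ← mul_k_zero] at h1
  exact h h1

lemma ord_g_dvd {n k : ℕ} [NeZero n] (a : ZMod n) :
    addOrderOf (Nat.gcd n k • a) ∣ n / Nat.gcd n k := by
  rw [addOrderOf_dvd_iff_nsmul_eq_zero, ← mul_nsmul', Nat.div_mul_cancel (Nat.gcd_dvd_left _ _)]
  simp

lemma exists_prime {n k : ℕ} [NeZero n] {a : ZMod n} (h : a * (k : ZMod n) ≠ 0) :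
    ∃ q, q.Prime ∧ q ∣ addOrderOf (Nat.gcd n k • a) ∧ q ∣ n / Nat.gcd n k := by
  have h1 : addOrderOf (Nat.gcd n k • a) ≠ 1 := by
    intro h2
    rw [AddMonoid.addOrderOf_eq_one_iff] at h2
    exact g_ne h h2
  obtain ⟨q, hq, hqd⟩ := Nat.exists_prime_and_dvd h1
  exact ⟨q, hq, hqd, hqd.trans (ord_g_dvd a)⟩

lemma Ev_large {n k s : ℕ} (hk1 : 1 ≤ k) (hs : k ≤ s) : Ev n k s = (-1) ^ (k - 1) := by
  unfold Ev
  rw [Nat.div_eq_of_lt (by omega : k - 1 < s)]
  simp

lemma Ev_one {n k s : ℕ} (hs : s < k) (hs2 : k ≤ 2 * s) :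
    Ev n k s = - (-1) ^ (k - 1) * ((n / s - 1 : ℕ) : ℝ) := by
  unfold Ev
  have h1 : (k - 1) / s = 1 := by
    apply Nat.div_eq_of_lt_le
    · omega
    · omega
  rw [h1, pow_succ]
  simp

/-- sufficiency, first family -/
lemma suff_one {n k : ℕ} [NeZero n] (hk1 : 1 ≤ k) (x : ZMod n)
    (hg : ¬ Nat.gcd n k ∣ x.val)
    (hq : ∀ q : ℕ, q.Prime → q ∣ n / Nat.gcd n k →
      (¬ q ^ (k.factorization q) ∣ x.val ∨ k ≤ q ^ (k.factorization q + 1)))
    (b : ZMod n) (hb0 : b ≠ 0) : hb n k x b = 0 := by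
  by_cases hex : ∃ a : ZMod n, a * (k : ZMod n) = b
  swap
  · unfold hb
    rw [Finset.filter_false_of_mem, Finset.sum_empty]
    intro a _ ha
    exact hex ⟨a, ha⟩
  obtain ⟨a0, ha0⟩ := hex
  obtain ⟨q, hqp, hqd, hqm⟩ := exists_prime (n := n) (k := k) (a := a0) (by rw [ha0]; exact hb0)
  have hk0 : k ≠ 0 := by omega
  obtain ⟨p1, p2, p3, p4⟩ := prime_data (NeZero.ne n) hk0 hqp hqm
  set v := k.factorization q with hv
  have hall : ∀ a : ZMod n, a * (k : ZMod n) = b → q ∣ addOrderOf (Nat.gcd n k • a) := by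
    intro a ha
    rw [fibre_g (ha.trans ha0.symm)]
    exact hqd
  rcases hq q hqp hqm with h1 | h1
  · have hqn : q ^ v ∣ n := (pow_dvd_pow q (Nat.le_succ v)).trans p1
    apply hb_zero_of_shift x b (((n / q ^ v : ℕ)) : ZMod n)
    · rw [mul_k_zero, order_elt hqn]
      exact p2.trans (Nat.gcd_dvd_right _ _)
    · rw [Ne, mul_x_zero, order_elt hqn]
      exact h1
    · intro a ha
      rw [order_shift a _ p2 (hall a ha) (by rw [order_elt hqn])]
  · have hgn : Nat.gcd n k ∣ n := Nat.gcd_dvd_left _ _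
    apply hb_zero_of_shift x b (((n / Nat.gcd n k : ℕ)) : ZMod n)
    · rw [mul_k_zero, order_elt hgn]
      exact Nat.gcd_dvd_right _ _
    · rw [Ne, mul_x_zero, order_elt hgn]
      exact hg
    · intro a ha
      have hE : ∀ a : ZMod n, a * (k : ZMod n) = b → Ev n k (addOrderOf a) = (-1) ^ (k - 1) := by
        intro a ha
        apply Ev_large hk1
        exact h1.trans (Nat.le_of_dvd (order_pos a) (order_lift a p2 (hall a ha)))
      rw [hE a ha, hE]
      rw [add_mul, ha]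
      have : (((n / Nat.gcd n k : ℕ)) : ZMod n) * (k : ZMod n) = 0 := by
        rw [mul_k_zero, order_elt hgn]
        exact Nat.gcd_dvd_right _ _
      rw [this, add_zero]

end Pool.Agent.V11199.SD
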