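import Mathlib

namespace Pool.Agent.V11199.SD

lemma choose_two_le {L r : ℕ} (h1 : 2 ≤ r) (h2 : r + 2 ≤ L) : L.choose 2 ≤ L.choose r := by
  have key : ∀ r, 2 ≤ r → r ≤ L / 2 → L.choose 2 ≤ L.choose r := by
    intro r hr
    induction r, hr using Nat.le_induction with
    | base => intro _; exact le_rfl
    | succ r hr ih =>
      intro h
      exact (ih (by omega)).trans (Nat.choose_le_succ_of_lt_half_left (by omega))
  by_cases h : r ≤ L / 2
  · exact key r h1 h
  · have h3 := key (L - r) (by omega) (by omega)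
    rwa [Nat.choose_symm (by omega : r ≤ L)] at h3

lemma vander (A B i r : ℕ) : A.choose i * B.choose r ≤ (A + B).choose (i + r) := by
  rw [Nat.add_choose_eq]
  exact Finset.single_le_sum (f := fun ij : ℕ × ℕ => A.choose ij.1 * B.choose ij.2)
    (fun _ _ => Nat.zero_le _) (a := (i, r)) (by simp)

lemma small_cases : ∀ N j d : Fin 10, (3 ≤ j.val ∧ 2 * j.val < N.val ∧ 2 ≤ d.val ∧ d.val ∣ N.val) →
    (N.val - 1) * (N.val / d.val - 1).choose (j.val / d.val) < (N.val - 1).choose j.val := by
  decide +kernel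

lemma dom_three {N j d : ℕ} (hj : 3 ≤ j) (hN : 2 * j < N) (hd : 2 ≤ d) (hdN : d ∣ N) :
    (N - 1) * (N / d - 1).choose (j / d) < (N - 1).choose j := by
  have hdle : d ≤ N := Nat.le_of_dvd (by omega) hdN
  by_cases h10 : N < 10
  · exact small_cases ⟨N, h10⟩ ⟨j, by omega⟩ ⟨d, by omega⟩ ⟨hj, hN, hd, hdN⟩
  push Not at h10
  obtain ⟨e, he⟩ := hdN
  have hd0 : 0 < d := by omega
  have hNd : N / d = e := by rw [he]; exact Nat.mul_div_cancel_left _ hd0
  rw [hNd]
  have he0 : 1 ≤ e := by
    rcases Nat.eq_zero_or_pos e with h | h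
    · rw [h] at he; omega
    · exact h
  set i := j / d with hi
  have hi1 : i ≤ j / 2 := Nat.div_le_div_left hd (by norm_num)
  have hil : i ≤ e - 1 := by
    have h1 : j < e * d := by rw [mul_comm, ← he]; omega
    have h2 : j / d < e := Nat.div_lt_of_lt_mul (by rw [mul_comm]; exact h1)
    omega
  clear_value i
  have h2e : 2 * e ≤ N := by rw [he]; exact Nat.mul_le_mul_right e hd
  have hB : (e - 1) + (N - e) = N - 1 := by omega
  have hij : i + (j - i) = j := by omega
  have hv := vander (e - 1) (N - e) i (j - i)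
  rw [hB, hij] at hv
  have hB2 : N ≤ 2 * (N - e) := by omega
  have hr2 : (j - i) + 2 ≤ N - e := by
    rcases Nat.lt_or_ge d 3 with h3 | h3
    · have hd2 : d = 2 := by omega
      rw [hd2] at hi he
      omega
    · have : 3 * e ≤ N := by rw [he]; exact Nat.mul_le_mul_right e h3
      omega
  have hc := choose_two_le (L := N - e) (r := j - i) (by omega) hr2
  have hc2 : N - 1 < (N - e).choose 2 := by
    rw [Nat.choose_two_right]
    set B := N - e with hBdef
    have hB5 : 5 ≤ B := by omega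
    have h4 : 2 * N ≤ B * (B - 1) := by
      clear_value B
      obtain ⟨c, rfl⟩ : ∃ c, B = c + 1 := ⟨B - 1, by omega⟩
      rw [Nat.add_sub_cancel]
      nlinarith
    have h5 : (2 * N) / 2 ≤ B * (B - 1) / 2 := Nat.div_le_div_right h4
    omega
  have hpos : 0 < (e - 1).choose i := Nat.choose_pos hil
  calc (N - 1) * (e - 1).choose i < (N - e).choose 2 * (e - 1).choose i :=
        Nat.mul_lt_mul_of_pos_right hc2 hpos
    _ ≤ (N - e).choose (j - i) * (e - 1).choose i := Nat.mul_le_mul_right _ hc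
    _ = (e - 1).choose i * (N - e).choose (j - i) := by ring
    _ ≤ (N - 1).choose j := hv

lemma dom_two {N d : ℕ} (hN : 5 ≤ N) (hd : 2 ≤ d) (hdN : d ∣ N) :
    2 * (N / d - 1).choose (2 / d) ≤ N - 2 ∧ (d ≠ 2 → 2 * (N / d - 1).choose (2 / d) < N - 2) := by
  rcases Nat.lt_or_ge d 3 with h3 | h3
  · have hd2 : d = 2 := by omega
    subst hd2
    refine ⟨?_, fun h => absurd rfl h⟩
    rw [Nat.div_self (by norm_num), Nat.choose_one_right]
    omega
  · rw [Nat.div_eq_of_lt (by omega : 2 < d), Nat.choose_zero_right]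
    omega

end Pool.Agent.V11199.SD
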