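import Mathlib
import Pool.Agent.V11199.SD.Arith
import Pool.Agent.V11199.SD.Ineq

namespace Pool.Agent.V11199.SD

open Finset

/-- the kernel subgroup -/
noncomputable def KK (n c : ℕ) [NeZero n] : Finset (ZMod n) :=
  (univ : Finset (ZMod n)).filter (fun w => addOrderOf w ∣ c)

lemma mem_KK {n c : ℕ} [NeZero n] {w : ZMod n} : w ∈ KK n c ↔ addOrderOf w ∣ c := by
  simp [KK]

lemma card_KK {n c : ℕ} [NeZero n] (hc : c ∣ n) : (KK n c).card = c := card_ord_dvd hc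

lemma q_dvd {n g q v : ℕ} [NeZero n] (hq : q.Prime) (a1 : ZMod n)
    (ho : addOrderOf a1 = q ^ (v + 1)) (hg : ¬ q ^ (v + 1) ∣ g) :
    q ∣ addOrderOf (g • a1) := by
  rw [addOrderOf_nsmul, ho]
  obtain ⟨e, he, hge⟩ := (Nat.dvd_prime_pow hq).mp (Nat.gcd_dvd_left (q ^ (v + 1)) g)
  have hne : e ≠ v + 1 := by
    intro h
    apply hg
    rw [← h, ← hge]
    exact Nat.gcd_dvd_right _ _
  rw [hge, Nat.pow_div he hq.pos]
  exact dvd_pow_self q (by omega)

lemma fibre_order {n g q v : ℕ} [NeZero n] (hq : q.Prime) (a1 w : ZMod n)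
    (ho : addOrderOf a1 = q ^ (v + 1)) (hg : ¬ q ^ (v + 1) ∣ g) (hg2 : q ^ v ∣ g)
    (hw : addOrderOf w ∣ g) :
    q ^ (v + 1) ∣ addOrderOf (a1 + w) ∧
      (addOrderOf (a1 + w) = q ^ (v + 1) ↔ addOrderOf w ∣ q ^ v) := by
  have h1 := q_dvd hq a1 ho hg
  have h2 : g • (a1 + w) = g • a1 := by
    rw [nsmul_add]
    have : g • w = 0 := by rw [← addOrderOf_dvd_iff_nsmul_eq_zero]; exact hw
    rw [this, add_zero]
  refine ⟨order_lift (a1 + w) hg2 (by rw [h2]; exact h1), ?_, ?_⟩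
  · intro h3
    have h4 : (q ^ (v + 1)) • (a1 + w) = 0 := by rw [← h3, addOrderOf_nsmul_eq_zero]
    rw [nsmul_add, ← ho, addOrderOf_nsmul_eq_zero, zero_add, ho,
      ← addOrderOf_dvd_iff_nsmul_eq_zero] at h4
    obtain ⟨e, he, hoe⟩ := (Nat.dvd_prime_pow hq).mp h4
    have hne : e ≠ v + 1 := by
      intro h
      apply hg
      rw [← h, ← hoe]
      exact hw
    rw [hoe]
    exact pow_dvd_pow q (by omega)
  · intro h3
    rw [order_shift a1 w hg2 h1 h3, ho]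

noncomputable def HH (n k : ℕ) [NeZero n] (x a1 : ZMod n) : ℂ :=
  ∑ w ∈ KK n (Nat.gcd n k), (ZMod.stdAddChar (-(w * x)) : ℂ) * (Ev n k (addOrderOf (a1 + w)) : ℂ)

lemma hb_fibre {n k : ℕ} [NeZero n] (x a1 : ZMod n) :
    hb n k x (a1 * (k : ZMod n)) = (ZMod.stdAddChar (-(a1 * x)) : ℂ) * HH n k x a1 := by
  unfold hb HH
  rw [Finset.mul_sum]
  apply Finset.sum_nbij' (fun a => a - a1) (fun w => a1 + w)
  · intro a ha
    rw [mem_filter] at ha
    rw [mem_KK, ← ord_dvd_k_iff, ← mul_k_zero, sub_mul, ha.2, sub_self]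
  · intro w hw
    rw [mem_KK, ← ord_dvd_k_iff, ← mul_k_zero] at hw
    rw [mem_filter]
    refine ⟨mem_univ _, ?_⟩
    rw [add_mul, hw, add_zero]
  · intro a _; ring
  · intro a _; ring
  · intro a _
    rw [← mul_assoc, ← AddChar.map_add_eq_mul]
    congr 2
    · congr 1; ring
    · congr 2; ring

lemma hb_ne {n k : ℕ} [NeZero n] (x a1 : ZMod n) :
    hb n k x (a1 * (k : ZMod n)) = 0 ↔ HH n k x a1 = 0 := by
  rw [hb_fibre, mul_eq_zero]
  constructor
  · rintro (h | h)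
    · exfalso
      have h2 : (ZMod.stdAddChar (-(a1 * x)) : ℂ) * (ZMod.stdAddChar (a1 * x) : ℂ) = 1 := by
        rw [← AddChar.map_add_eq_mul]; simp
      rw [h, zero_mul] at h2
      exact zero_ne_one h2
    · exact h
  · intro h; exact Or.inr h

lemma sum_KK_of_dvd {n c : ℕ} [NeZero n] (hc : c ∣ n) (x : ZMod n) (hx : c ∣ x.val) :
    ∑ w ∈ KK n c, (ZMod.stdAddChar (-(w * x)) : ℂ) = c := by
  have h1 : ∀ w ∈ KK n c, (ZMod.stdAddChar (-(w * x)) : ℂ) = 1 := by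
    intro w hw
    have : w * x = 0 := by
      rw [mul_x_zero]
      exact (mem_KK.mp hw).trans hx
    rw [this, neg_zero, AddChar.map_zero_eq_one]
  rw [Finset.sum_congr rfl h1, Finset.sum_const, card_KK hc]
  simp

lemma sum_KK_of_not_dvd {n c : ℕ} [NeZero n] (hc : c ∣ n) (x : ZMod n) (hx : ¬ c ∣ x.val) :
    ∑ w ∈ KK n c, (ZMod.stdAddChar (-(w * x)) : ℂ) = 0 := by
  set u : ZMod n := ((n / c : ℕ) : ZMod n) with hu
  have huo : addOrderOf u = c := order_elt hc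
  have h1 : ∑ w ∈ KK n c, (ZMod.stdAddChar (-(w * x)) : ℂ)
      = (ZMod.stdAddChar (-(u * x)) : ℂ) * ∑ w ∈ KK n c, (ZMod.stdAddChar (-(w * x)) : ℂ) := by
    rw [Finset.mul_sum]
    symm
    apply Finset.sum_nbij' (fun w => u + w) (fun w => w - u)
    · intro w hw
      rw [mem_KK, addOrderOf_dvd_iff_nsmul_eq_zero] at hw ⊢
      rw [nsmul_add, hw, ← huo, addOrderOf_nsmul_eq_zero, add_zero]
    · intro w hw
      rw [mem_KK, addOrderOf_dvd_iff_nsmul_eq_zero] at hw ⊢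
      rw [nsmul_sub, hw, ← huo, addOrderOf_nsmul_eq_zero, sub_zero]
    · intro w _; ring
    · intro w _; ring
    · intro w _
      rw [← AddChar.map_add_eq_mul]
      congr 1
      ring
  have h3 : (ZMod.stdAddChar (-(u * x)) : ℂ) ≠ 1 := by
    intro h
    rw [← (ZMod.stdAddChar (N := n)).map_zero_eq_one] at h
    have h5 := ZMod.injective_stdAddChar h
    rw [neg_eq_zero, mul_x_zero, huo] at h5
    exact hx h5
  have h4 : ((ZMod.stdAddChar (-(u * x)) : ℂ) - 1) *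
      ∑ w ∈ KK n c, (ZMod.stdAddChar (-(w * x)) : ℂ) = 0 := by
    linear_combination -h1
  rcases mul_eq_zero.mp h4 with h5 | h5
  · exact absurd (sub_eq_zero.mp h5) h3
  · exact h5

/-- the case s < k ≤ 2s -/
lemma HH_one {n k q v : ℕ} [NeZero n] (hq : q.Prime) (x a1 : ZMod n)
    (ho : addOrderOf a1 = q ^ (v + 1)) (hg : ¬ q ^ (v + 1) ∣ Nat.gcd n k)
    (hg2 : q ^ v ∣ Nat.gcd n k) (hx : q ^ v ∣ x.val)
    (h1 : q ^ (v + 1) < k) (h2 : k ≤ 2 * q ^ (v + 1)) :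
    HH n k x a1 = (-1) ^ (k - 1) * (∑ w ∈ KK n (Nat.gcd n k), (ZMod.stdAddChar (-(w * x)) : ℂ)
      - ((n / q ^ (v + 1) : ℕ) : ℂ) * (q ^ v : ℕ)) := by
  have hqn : q ^ v ∣ n := hg2.trans (Nat.gcd_dvd_left _ _)
  have hs0 : q ^ (v + 1) ∣ n := by rw [← ho]; exact order_dvd a1
  have hN1 : 1 ≤ n / q ^ (v + 1) := Nat.div_pos (Nat.le_of_dvd (Nat.pos_of_ne_zero (NeZero.ne n)) hs0)
    (pow_pos hq.pos _)
  have hterm : ∀ w ∈ KK n (Nat.gcd n k),
      (ZMod.stdAddChar (-(w * x)) : ℂ) * (Ev n k (addOrderOf (a1 + w)) : ℂ)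
      = (-1) ^ (k - 1) * (ZMod.stdAddChar (-(w * x)) : ℂ)
        - (if addOrderOf w ∣ q ^ v then
          (-1) ^ (k - 1) * ((n / q ^ (v + 1) : ℕ) : ℂ) * (ZMod.stdAddChar (-(w * x)) : ℂ) else 0) := by
    intro w hw
    obtain ⟨f1, f2⟩ := fibre_order hq a1 w ho hg hg2 (mem_KK.mp hw)
    by_cases hd : addOrderOf w ∣ q ^ v
    · rw [if_pos hd, f2.mpr hd, Ev_one h1 h2]
      push_cast [hN1]
      ring
    · rw [if_neg hd]
      have hne : addOrderOf (a1 + w) ≠ q ^ (v + 1) := fun h => hd (f2.mp h)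
      obtain ⟨d, hdd⟩ := f1
      have hd2 : 2 ≤ d := by
        rcases Nat.lt_or_ge d 2 with h3 | h3
        · exfalso
          interval_cases d
          · rw [mul_zero] at hdd
            exact (order_pos (a1 + w)).ne' hdd
          · rw [mul_one] at hdd
            exact hne hdd
        · exact h3
      rw [Ev_large (by omega)]
      · push_cast
        ring
      · rw [hdd]
        calc k ≤ 2 * q ^ (v + 1) := h2
          _ = q ^ (v + 1) * 2 := by ring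
          _ ≤ q ^ (v + 1) * d := Nat.mul_le_mul_left _ hd2
  unfold HH
  rw [Finset.sum_congr rfl hterm, Finset.sum_sub_distrib, ← Finset.mul_sum, ← Finset.sum_filter]
  have hset : (KK n (Nat.gcd n k)).filter (fun w => addOrderOf w ∣ q ^ v) = KK n (q ^ v) := by
    ext w
    rw [mem_filter, mem_KK, mem_KK]
    exact ⟨fun h => h.2, fun h => ⟨h.trans hg2, h⟩⟩
  rw [hset, ← Finset.mul_sum, sum_KK_of_dvd hqn x hx]
  ring

end Pool.Agent.V11199.SD
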