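import Mathlib
import Pool.Agent.V11199.SD.Fibre

namespace Pool.Agent.V11199.SD

open Finset

lemma norm_char {n : ℕ} [NeZero n] (j : ZMod n) : ‖(ZMod.stdAddChar j : ℂ)‖ = 1 := by
  rw [ZMod.stdAddChar_apply]
  exact Circle.norm_coe _

lemma abs_Ev {n k s : ℕ} : |Ev n k s| = ((n / s - 1).choose ((k - 1) / s) : ℝ) := by
  unfold Ev
  rw [abs_mul, abs_pow, abs_neg, abs_one, one_pow, one_mul, Nat.abs_cast]

/-- the counting consequence of HH = 0 -/
lemma count_of_zero {n k q v : ℕ} [NeZero n] (hq : q.Prime) (x a1 : ZMod n)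
    (ho : addOrderOf a1 = q ^ (v + 1)) (hg : ¬ q ^ (v + 1) ∣ Nat.gcd n k)
    (hg2 : q ^ v ∣ Nat.gcd n k) (hx : q ^ v ∣ x.val) (hH : HH n k x a1 = 0) :
    q ^ v * (n / q ^ (v + 1) - 1).choose ((k - 1) / q ^ (v + 1)) ≤
      ∑ w ∈ (KK n (Nat.gcd n k)).filter (fun w => ¬ addOrderOf w ∣ q ^ v),
        (n / addOrderOf (a1 + w) - 1).choose ((k - 1) / addOrderOf (a1 + w)) := by
  have hqn : q ^ v ∣ n := hg2.trans (Nat.gcd_dvd_left _ _)
  unfold HH at hH
  rw [← Finset.sum_filter_add_sum_filter_not (KK n (Nat.gcd n k))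
    (fun w => addOrderOf w ∣ q ^ v)] at hH
  have hset : (KK n (Nat.gcd n k)).filter (fun w => addOrderOf w ∣ q ^ v) = KK n (q ^ v) := by
    ext w
    rw [mem_filter, mem_KK, mem_KK]
    exact ⟨fun h => h.2, fun h => ⟨h.trans hg2, h⟩⟩
  have h1 : ∑ w ∈ (KK n (Nat.gcd n k)).filter (fun w => addOrderOf w ∣ q ^ v),
      (ZMod.stdAddChar (-(w * x)) : ℂ) * (Ev n k (addOrderOf (a1 + w)) : ℂ)
      = (q ^ v : ℕ) * (Ev n k (q ^ (v + 1)) : ℂ) := by
    rw [hset, ← sum_KK_of_dvd hqn x hx, Finset.sum_mul]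
    apply Finset.sum_congr rfl
    intro w hw
    have hw' := mem_KK.mp hw
    rw [(fibre_order hq a1 w ho hg hg2 (hw'.trans hg2)).2.mpr hw']
  rw [h1] at hH
  have h2 : (q ^ v : ℕ) * (Ev n k (q ^ (v + 1)) : ℂ)
      = - ∑ w ∈ (KK n (Nat.gcd n k)).filter (fun w => ¬ addOrderOf w ∣ q ^ v),
      (ZMod.stdAddChar (-(w * x)) : ℂ) * (Ev n k (addOrderOf (a1 + w)) : ℂ) := by
    linear_combination hH
  have h3 := congrArg norm h2
  rw [norm_neg, norm_mul, Complex.norm_natCast, Complex.norm_real, Real.norm_eq_abs, abs_Ev] at h3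
  have h4 : ‖∑ w ∈ (KK n (Nat.gcd n k)).filter (fun w => ¬ addOrderOf w ∣ q ^ v),
      (ZMod.stdAddChar (-(w * x)) : ℂ) * (Ev n k (addOrderOf (a1 + w)) : ℂ)‖
      ≤ ∑ w ∈ (KK n (Nat.gcd n k)).filter (fun w => ¬ addOrderOf w ∣ q ^ v),
        ((n / addOrderOf (a1 + w) - 1).choose ((k - 1) / addOrderOf (a1 + w)) : ℝ) := by
    refine (norm_sum_le _ _).trans (le_of_eq ?_)
    apply Finset.sum_congr rfl
    intro w _
    rw [norm_mul, norm_char, one_mul, Complex.norm_real, Real.norm_eq_abs, abs_Ev]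
  rw [← h3] at h4
  exact_mod_cast h4

/-- structure of the orders in the second part -/
lemma second_part {n k q v : ℕ} [NeZero n] (hq : q.Prime) (a1 w : ZMod n)
    (ho : addOrderOf a1 = q ^ (v + 1)) (hg : ¬ q ^ (v + 1) ∣ Nat.gcd n k)
    (hg2 : q ^ v ∣ Nat.gcd n k)
    (hw : w ∈ (KK n (Nat.gcd n k)).filter (fun w => ¬ addOrderOf w ∣ q ^ v)) :
    ∃ d, 2 ≤ d ∧ addOrderOf (a1 + w) = q ^ (v + 1) * d ∧ d ∣ n / q ^ (v + 1) ∧
      (n / addOrderOf (a1 + w) - 1).choose ((k - 1) / addOrderOf (a1 + w)) =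
      (n / q ^ (v + 1) / d - 1).choose ((k - 1) / q ^ (v + 1) / d) := by
  obtain ⟨hw1, hw2⟩ := mem_filter.mp hw
  obtain ⟨f1, f2⟩ := fibre_order hq a1 w ho hg hg2 (mem_KK.mp hw1)
  have hne : addOrderOf (a1 + w) ≠ q ^ (v + 1) := fun h => hw2 (f2.mp h)
  obtain ⟨d, hdd⟩ := f1
  have hd2 : 2 ≤ d := by
    rcases Nat.lt_or_ge d 2 with h3 | h3
    · exfalso
      interval_cases d
      · rw [mul_zero] at hdd
        exact (order_pos (a1 + w)).ne' hdd
      · rw [mul_one] at hdd
        exact hne hdd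
    · exact h3
  have hs0 : 0 < q ^ (v + 1) := pow_pos hq.pos _
  refine ⟨d, hd2, hdd, ?_, ?_⟩
  · have h1 : q ^ (v + 1) * d ∣ n := hdd ▸ order_dvd (a1 + w)
    obtain ⟨l, hl⟩ := h1
    refine ⟨l, ?_⟩
    rw [Nat.div_eq_of_eq_mul_right hs0 (by rw [← mul_assoc]; exact hl)]
  · rw [hdd, ← Nat.div_div_eq_div_mul, ← Nat.div_div_eq_div_mul]

/-- dominance: k > 2s is impossible -/
lemma dominance {n k q v : ℕ} [NeZero n] (hq : q.Prime) (hk : 2 * k ≤ n) (x a1 : ZMod n)
    (ho : addOrderOf a1 = q ^ (v + 1)) (hg : ¬ q ^ (v + 1) ∣ Nat.gcd n k)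
    (hg2 : q ^ v ∣ Nat.gcd n k) (hx : q ^ v ∣ x.val) (hqm : q ∣ n / Nat.gcd n k)
    (hk2 : 2 * q ^ (v + 1) < k) : HH n k x a1 ≠ 0 := by
  intro hH
  have hcount := count_of_zero hq x a1 ho hg hg2 hx hH
  have hn0 : 0 < n := Nat.pos_of_ne_zero (NeZero.ne n)
  have hqn : q ^ v ∣ n := hg2.trans (Nat.gcd_dvd_left _ _)
  have hs0 : 0 < q ^ (v + 1) := pow_pos hq.pos _
  have hs1 : 0 < q ^ v := pow_pos hq.pos _
  have hsn : q ^ (v + 1) ∣ n := by rw [← ho]; exact order_dvd a1
  set N := n / q ^ (v + 1) with hN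
  set j := (k - 1) / q ^ (v + 1) with hj
  set K2 := (KK n (Nat.gcd n k)).filter (fun w => ¬ addOrderOf w ∣ q ^ v) with hK2
  have hNn : q ^ (v + 1) * N = n := Nat.mul_div_cancel' hsn
  have hj2 : 2 ≤ j := by
    rw [hj, Nat.le_div_iff_mul_le hs0]; omega
  have hjN : 2 * j < N := by
    have h1 : j * q ^ (v + 1) ≤ k - 1 := Nat.div_mul_le_self _ _
    have h2 : 2 * (j * q ^ (v + 1)) < q ^ (v + 1) * N := by rw [hNn]; omega
    have h3 : (2 * j) * q ^ (v + 1) < N * q ^ (v + 1) := by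
      calc (2 * j) * q ^ (v + 1) = 2 * (j * q ^ (v + 1)) := by ring
        _ < q ^ (v + 1) * N := h2
        _ = N * q ^ (v + 1) := by ring
    exact Nat.lt_of_mul_lt_mul_right h3
  have hcardK : (KK n (Nat.gcd n k)).card = Nat.gcd n k := card_KK (Nat.gcd_dvd_left _ _)
  have hcardK2 : K2.card + q ^ v = Nat.gcd n k := by
    have hset : (KK n (Nat.gcd n k)).filter (fun w => addOrderOf w ∣ q ^ v) = KK n (q ^ v) := by
      ext w
      rw [mem_filter, mem_KK, mem_KK]
      exact ⟨fun h => h.2, fun h => ⟨h.trans hg2, h⟩⟩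
    have h1 := Finset.card_filter_add_card_filter_not (s := KK n (Nat.gcd n k))
      (fun w => addOrderOf w ∣ q ^ v)
    rw [hset, card_KK hqn, hcardK] at h1
    rw [add_comm]
    convert h1
  have hgle : Nat.gcd n k ≤ q ^ v * N := by
    obtain ⟨m', hm'⟩ := hqm
    have h1 : Nat.gcd n k * (n / Nat.gcd n k) = n := Nat.mul_div_cancel' (Nat.gcd_dvd_left _ _)
    rw [hm'] at h1
    have hm0 : 0 < m' := by
      rcases Nat.eq_zero_or_pos m' with h | h
      · rw [h, mul_zero, mul_zero] at h1; omega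
      · exact h
    have h2 : Nat.gcd n k * q * m' = q ^ v * N * q := by
      calc Nat.gcd n k * q * m' = Nat.gcd n k * (q * m') := by ring
        _ = n := h1
        _ = q ^ (v + 1) * N := hNn.symm
        _ = q ^ v * N * q := by ring
    have h3 : Nat.gcd n k * q ≤ q ^ v * N * q := by
      rw [← h2]; exact Nat.le_mul_of_pos_right _ hm0
    exact Nat.le_of_mul_le_mul_right h3 hq.pos
  have hK2le : K2.card ≤ q ^ v * (N - 1) := by
    rw [Nat.mul_sub, mul_one]; omega
  rcases Nat.lt_or_ge j 3 with hj3 | hj3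
  · -- j = 2
    have hje : j = 2 := by omega
    rw [hje] at hcount
    have hN5 : 5 ≤ N := by omega
    have hc2 : 2 * (N - 1).choose 2 = (N - 1) * (N - 2) := by
      rw [Nat.choose_two_right, Nat.mul_div_cancel']
      · rfl
      · exact (Nat.even_mul_pred_self (N - 1)).two_dvd
    have hle : ∀ w ∈ K2, 2 * (n / addOrderOf (a1 + w) - 1).choose ((k - 1) / addOrderOf (a1 + w))
        ≤ N - 2 := by
      intro w hw
      obtain ⟨d, hd, _, hdN, he⟩ := second_part (k := k) hq a1 w ho hg hg2 hw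
      rw [he, ← hN, ← hj, hje]
      exact (dom_two hN5 hd hdN).1
    have hsum : ∑ w ∈ K2, 2 * (n / addOrderOf (a1 + w) - 1).choose ((k - 1) / addOrderOf (a1 + w))
        < q ^ v * ((N - 1) * (N - 2)) := by
      rcases Nat.lt_or_ge K2.card (q ^ v * (N - 1)) with hlt | hge
      · calc ∑ w ∈ K2, 2 * (n / addOrderOf (a1 + w) - 1).choose ((k - 1) / addOrderOf (a1 + w))
            ≤ ∑ w ∈ K2, (N - 2) := Finset.sum_le_sum hle
          _ = K2.card * (N - 2) := by rw [Finset.sum_const, smul_eq_mul]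
          _ < q ^ v * (N - 1) * (N - 2) := Nat.mul_lt_mul_of_pos_right hlt (by omega)
          _ = q ^ v * ((N - 1) * (N - 2)) := by ring
      · -- the exceptional size: use the element of order g
        have hgeq : Nat.gcd n k = q ^ v * N := by
          have : q ^ v * (N - 1) + q ^ v = q ^ v * N := by
            obtain ⟨N', hN'⟩ : ∃ N', N = N' + 1 := ⟨N - 1, by omega⟩
            rw [hN', Nat.add_sub_cancel]; ring
          omega
        set u : ZMod n := ((n / Nat.gcd n k : ℕ) : ZMod n) with hu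
        have huo : addOrderOf u = Nat.gcd n k := order_elt (Nat.gcd_dvd_left _ _)
        have huK : u ∈ K2 := by
          rw [hK2, mem_filter, mem_KK, huo]
          refine ⟨dvd_rfl, fun h => ?_⟩
          have h1 := Nat.le_of_dvd hs1 h
          rw [hgeq] at h1
          have h2 : q ^ v * 5 ≤ q ^ v * N := Nat.mul_le_mul_left _ hN5
          omega
        obtain ⟨d, hd, hdo, hdN, he⟩ := second_part (k := k) hq a1 u ho hg hg2 huK
        have hd2 : d ≠ 2 := by
          intro hd2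
          rw [hd2] at hdo
          have h1 : (q ^ (v + 1) * 2) • (a1 + u) = 0 := by
            rw [← hdo, addOrderOf_nsmul_eq_zero]
          have h2 : (q ^ (v + 1) * 2) • a1 = 0 := by
            rw [← addOrderOf_dvd_iff_nsmul_eq_zero, ho]
            exact Dvd.intro _ rfl
          rw [nsmul_add, h2, zero_add, ← addOrderOf_dvd_iff_nsmul_eq_zero, huo, hgeq, pow_succ,
            mul_assoc] at h1
          have h3 := Nat.dvd_of_mul_dvd_mul_left hs1 h1
          have hcop : Nat.Coprime N q := by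
            rw [Nat.coprime_comm, hq.coprime_iff_not_dvd]
            intro h4
            apply hg
            rw [hgeq, pow_succ]
            exact Nat.mul_dvd_mul_left _ h4
          have h5 := hcop.dvd_of_dvd_mul_left h3
          have h6 := Nat.le_of_dvd (by norm_num) h5
          omega
        have hlt : 2 * (n / addOrderOf (a1 + u) - 1).choose ((k - 1) / addOrderOf (a1 + u))
            < N - 2 := by
          rw [he, ← hN, ← hj, hje]
          exact (dom_two hN5 hd hdN).2 hd2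
        calc ∑ w ∈ K2, 2 * (n / addOrderOf (a1 + w) - 1).choose ((k - 1) / addOrderOf (a1 + w))
            < ∑ w ∈ K2, (N - 2) := Finset.sum_lt_sum hle ⟨u, huK, hlt⟩
          _ = K2.card * (N - 2) := by rw [Finset.sum_const, smul_eq_mul]
          _ ≤ q ^ v * (N - 1) * (N - 2) := Nat.mul_le_mul_right _ hK2le
          _ = q ^ v * ((N - 1) * (N - 2)) := by ring
    rw [← Finset.mul_sum, ← hc2] at hsum
    have h7 : 2 * (q ^ v * (N - 1).choose 2) ≤
        2 * ∑ w ∈ K2, (n / addOrderOf (a1 + w) - 1).choose ((k - 1) / addOrderOf (a1 + w)) :=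
      Nat.mul_le_mul_left 2 hcount
    have h8 : q ^ v * (2 * (N - 1).choose 2) = 2 * (q ^ v * (N - 1).choose 2) := by ring
    omega
  · -- j ≥ 3
    have hlt : ∀ w ∈ K2, (N - 1) *
        (n / addOrderOf (a1 + w) - 1).choose ((k - 1) / addOrderOf (a1 + w))
        < (N - 1).choose j := by
      intro w hw
      obtain ⟨d, hd, _, hdN, he⟩ := second_part (k := k) hq a1 w ho hg hg2 hw
      rw [he, ← hN, ← hj]
      exact dom_three hj3 hjN hd hdN
    have hCpos : 0 < (N - 1).choose j := Nat.choose_pos (by omega)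
    rcases K2.eq_empty_or_nonempty with hemp | hne
    · rw [hemp, Finset.sum_empty] at hcount
      have : 0 < q ^ v * (N - 1).choose j := Nat.mul_pos hs1 hCpos
      omega
    · have h1 : ∑ w ∈ K2, (N - 1) *
        (n / addOrderOf (a1 + w) - 1).choose ((k - 1) / addOrderOf (a1 + w))
        < ∑ w ∈ K2, (N - 1).choose j := Finset.sum_lt_sum_of_nonempty hne hlt
      rw [Finset.sum_const, smul_eq_mul, ← Finset.mul_sum] at h1
      have h2 : K2.card * (N - 1).choose j ≤ q ^ v * (N - 1) * (N - 1).choose j :=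
        Nat.mul_le_mul_right _ hK2le
      have h3 : (N - 1) * (q ^ v * (N - 1).choose j) ≤ (N - 1) *
        ∑ w ∈ K2, (n / addOrderOf (a1 + w) - 1).choose ((k - 1) / addOrderOf (a1 + w)) :=
        Nat.mul_le_mul_left _ hcount
      have h4 : (N - 1) * (q ^ v * (N - 1).choose j) = q ^ v * (N - 1) * (N - 1).choose j := by ring
      omega

end Pool.Agent.V11199.SD
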