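import Mathlib
import Pool.Agent.V11199.SD.Main

namespace Pool.Agent.V11199.SD

open Finset

lemma suff_two {n k q : ℕ} [NeZero n] (hk1 : 1 ≤ k) (x : ZMod n) (hgx : Nat.gcd n k ∣ x.val)
    (hq : q.Prime) (hqe : n / Nat.gcd n k = q) (h1 : q ^ (k.factorization q + 1) < k)
    (h2 : k ≤ 2 * q ^ (k.factorization q + 1)) (b : ZMod n) (hb0 : b ≠ 0) : hb n k x b = 0 := by
  by_cases hex : ∃ a : ZMod n, a * (k : ZMod n) = b
  swap
  · unfold hb
    rw [Finset.filter_false_of_mem, Finset.sum_empty]
    intro a _ ha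
    exact hex ⟨a, ha⟩
  obtain ⟨a0, ha0⟩ := hex
  obtain ⟨p1, p2, p3, p4⟩ := prime_data (NeZero.ne n) (by omega : k ≠ 0) hq (by rw [hqe])
  set v := k.factorization q with hv
  set g := Nat.gcd n k with hg
  have hn : g * q = n := by rw [← hqe]; exact Nat.mul_div_cancel' (Nat.gcd_dvd_left _ _)
  obtain ⟨g', hg'⟩ := p2
  have hn2 : q ^ (v + 1) * g' = n := by rw [← hn, hg']; ring
  have hcop : Nat.Coprime (q ^ (v + 1)) g' := by
    apply Nat.Coprime.pow_left
    rw [hq.coprime_iff_not_dvd]
    intro h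
    apply p3
    rw [hg', pow_succ]
    exact Nat.mul_dvd_mul_left _ h
  obtain ⟨c, hc1, hc2⟩ := Nat.chineseRemainder hcop 1 0
  have hqb : addOrderOf b ∣ q := by
    rw [addOrderOf_dvd_iff_nsmul_eq_zero, ← ha0, nsmul_eq_mul]
    have hgk : g ∣ k := Nat.gcd_dvd_right _ _
    obtain ⟨l, hl⟩ := hgk
    have : (q : ZMod n) * (a0 * (k : ZMod n)) = a0 * ((l * n : ℕ) : ZMod n) := by
      have e : l * n = q * k := by rw [hl, ← hn]; ring
      rw [e]; push_cast; ring
    rw [this]; simp
  have hcb : (c • a0) * (k : ZMod n) = b := by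
    rw [smul_mul_assoc, ha0]
    have h3 : c ≡ 1 [MOD addOrderOf b] :=
      hc1.of_dvd (hqb.trans (dvd_pow_self q (by omega)))
    have h4 := (nsmul_eq_nsmul_iff_modEq (x := b)).mpr h3
    rw [h4, one_nsmul]
  have hord : addOrderOf (c • a0) = q ^ (v + 1) := by
    apply Nat.dvd_antisymm
    · rw [addOrderOf_dvd_iff_nsmul_eq_zero, ← mul_nsmul', ← addOrderOf_dvd_iff_nsmul_eq_zero]
      apply (order_dvd a0).trans
      rw [← hn2]
      exact Nat.mul_dvd_mul_left _ ((Nat.modEq_zero_iff_dvd).mp hc2)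
    · have hq1 : q ∣ addOrderOf (g • (c • a0)) := by
        have h3 : addOrderOf (g • (c • a0)) ∣ q := by
          have := ord_g_dvd (n := n) (k := k) (c • a0)
          rwa [hqe] at this
        rcases (Nat.dvd_prime hq).mp h3 with h4 | h4
        · exfalso
          rw [AddMonoid.addOrderOf_eq_one_iff] at h4
          exact g_ne (n := n) (k := k) (a := c • a0) (by rw [hcb]; exact hb0) h4
        · rw [h4]
      exact order_lift (c • a0) ⟨g', hg'⟩ hq1
  rw [← hcb, hb_ne]
  have hqvx : q ^ v ∣ x.val := (Dvd.intro g' hg'.symm : q ^ v ∣ g).trans hgx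
  rw [HH_one hq x (c • a0) hord p3 ⟨g', hg'⟩ hqvx h1 h2]
  rw [sum_KK_of_dvd (Nat.gcd_dvd_left _ _) x hgx]
  have hN : n / q ^ (v + 1) = g' :=
    Nat.div_eq_of_eq_mul_right (pow_pos hq.pos _) hn2.symm
  rw [hN, ← hg, hg']
  push_cast
  ring

/-- the explicit condition for k at most half of n -/
def HalfCond (n k : ℕ) (x : ZMod n) : Prop :=
  (¬ Nat.gcd n k ∣ x.val ∧ ∀ q : ℕ, q.Prime → q ∣ n / Nat.gcd n k →
      (¬ q ^ (k.factorization q) ∣ x.val ∨ k ≤ q ^ (k.factorization q + 1)))
  ∨ (Nat.gcd n k ∣ x.val ∧ ∃ q : ℕ, q.Prime ∧ n / Nat.gcd n k = q ∧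
      q ^ (k.factorization q + 1) < k ∧ k ≤ 2 * q ^ (k.factorization q + 1))

lemma main_half {n k : ℕ} [NeZero n] (hk1 : 1 ≤ k) (hkn : 2 * k ≤ n) (x : ZMod n) :
    (∀ b : ZMod n, b ≠ 0 → hb n k x b = 0) ↔ HalfCond n k x := by
  constructor
  swap
  · rintro (⟨h1, h2⟩ | ⟨h1, q, hq, hqe, h3, h4⟩) b hb0
    · exact suff_one hk1 x h1 h2 b hb0
    · exact suff_two hk1 x h1 hq hqe h3 h4 b hb0
  intro h
  have hn0 : 0 < n := Nat.pos_of_ne_zero (NeZero.ne n)
  have hg0 : 0 < Nat.gcd n k := Nat.gcd_pos_of_pos_left _ hn0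
  have hHH : ∀ q : ℕ, q.Prime → q ∣ n / Nat.gcd n k →
      HH n k x (((n / q ^ (k.factorization q + 1) : ℕ)) : ZMod n) = 0 := by
    intro q hq hqm
    obtain ⟨p1, p2, p3, p4⟩ := prime_data (NeZero.ne n) (by omega : k ≠ 0) hq hqm
    rw [← hb_ne]
    apply h
    rw [Ne, mul_k_zero, order_elt p1]
    exact p4
  have keyA : ∀ q : ℕ, q.Prime → q ∣ n / Nat.gcd n k → q ^ (k.factorization q) ∣ x.val →
      q ^ (k.factorization q + 1) < k →
      k ≤ 2 * q ^ (k.factorization q + 1) ∧ Nat.gcd n k ∣ x.val ∧ n / Nat.gcd n k = q := by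
    intro q hq hqm hqx hqk
    obtain ⟨p1, p2, p3, p4⟩ := prime_data (NeZero.ne n) (by omega : k ≠ 0) hq hqm
    have hz := hHH q hq hqm
    have ho := order_elt p1
    have h2 : k ≤ 2 * q ^ (k.factorization q + 1) := by
      by_contra hcon
      exact dominance hq hkn x _ ho p3 p2 hqx hqm (by omega) hz
    have hN1 : 0 < n / q ^ (k.factorization q + 1) :=
      Nat.div_pos (Nat.le_of_dvd hn0 p1) (pow_pos hq.pos _)
    rw [HH_one hq x _ ho p3 p2 hqx hqk h2] at hz
    have hz2 : ∑ w ∈ KK n (Nat.gcd n k), (ZMod.stdAddChar (-(w * x)) : ℂ)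
        = ((n / q ^ (k.factorization q + 1) * q ^ (k.factorization q) : ℕ) : ℂ) := by
      rcases mul_eq_zero.mp hz with h3 | h3
      · exfalso
        exact (pow_ne_zero _ (by norm_num : (-1 : ℂ) ≠ 0)) h3
      · push_cast at h3 ⊢
        linear_combination h3
    have hpos : 0 < n / q ^ (k.factorization q + 1) * q ^ (k.factorization q) :=
      Nat.mul_pos hN1 (pow_pos hq.pos _)
    have hgx : Nat.gcd n k ∣ x.val := by
      by_contra hcon
      rw [sum_KK_of_not_dvd (Nat.gcd_dvd_left _ _) x hcon] at hz2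
      have h5 : n / q ^ (k.factorization q + 1) * q ^ (k.factorization q) = 0 := by
        exact_mod_cast hz2.symm
      omega
    refine ⟨h2, hgx, ?_⟩
    rw [sum_KK_of_dvd (Nat.gcd_dvd_left _ _) x hgx] at hz2
    have h6 : Nat.gcd n k = n / q ^ (k.factorization q + 1) * q ^ (k.factorization q) := by
      exact_mod_cast hz2
    have h7 : q ^ (k.factorization q + 1) * (n / q ^ (k.factorization q + 1)) = n :=
      Nat.mul_div_cancel' p1
    apply Nat.div_eq_of_eq_mul_right hg0
    rw [h6]
    calc n = q ^ (k.factorization q + 1) * (n / q ^ (k.factorization q + 1)) := h7.symm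
      _ = n / q ^ (k.factorization q + 1) * q ^ (k.factorization q) * q := by ring
  by_cases hgx : Nat.gcd n k ∣ x.val
  · right
    refine ⟨hgx, ?_⟩
    have hm : n / Nat.gcd n k ≠ 1 := by
      intro h1
      have h2 : Nat.gcd n k * (n / Nat.gcd n k) = n := Nat.mul_div_cancel' (Nat.gcd_dvd_left _ _)
      rw [h1, mul_one] at h2
      have h3 : Nat.gcd n k ≤ k := Nat.gcd_le_right _ (by omega)
      omega
    obtain ⟨q, hq, hqm⟩ := Nat.exists_prime_and_dvd hm
    obtain ⟨p1, p2, p3, p4⟩ := prime_data (NeZero.ne n) (by omega : k ≠ 0) hq hqm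
    have hqx : q ^ (k.factorization q) ∣ x.val := p2.trans hgx
    have hlt : q ^ (k.factorization q + 1) < k := by
      by_contra hcon
      have hz := hHH q hq hqm
      have ho := order_elt p1
      have hE : HH n k x (((n / q ^ (k.factorization q + 1) : ℕ)) : ZMod n)
          = (-1) ^ (k - 1) * ∑ w ∈ KK n (Nat.gcd n k), (ZMod.stdAddChar (-(w * x)) : ℂ) := by
        unfold HH
        rw [Finset.mul_sum]
        apply Finset.sum_congr rfl
        intro w hw
        have f1 := (fibre_order hq _ w ho p3 p2 (mem_KK.mp hw)).1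
        rw [Ev_large hk1]
        · push_cast; ring
        · exact (by omega : k ≤ q ^ (k.factorization q + 1)).trans
            (Nat.le_of_dvd (order_pos _) f1)
      rw [hE, sum_KK_of_dvd (Nat.gcd_dvd_left _ _) x hgx] at hz
      rcases mul_eq_zero.mp hz with h3 | h3
      · exact (pow_ne_zero _ (by norm_num : (-1 : ℂ) ≠ 0)) h3
      · have : Nat.gcd n k = 0 := by exact_mod_cast h3
        omega
    obtain ⟨h1, _, h3⟩ := keyA q hq hqm hqx hlt
    exact ⟨q, hq, h3, hlt, h1⟩
  · left
    refine ⟨hgx, fun q hq hqm => ?_⟩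
    by_contra hcon
    push Not at hcon
    exact hgx (keyA q hq hqm hcon.1 hcon.2).2.1

/-- a one-design: some block exists and all points have the same degree -/
def IsOneDesign (n k : ℕ) [NeZero n] (x : ZMod n) : Prop :=
  (blocks n k x).Nonempty ∧
    ∃ r : ℕ, ∀ y : ZMod n, ((blocks n k x).filter (fun T => y ∈ T)).card = r

lemma closed_univ {n : ℕ} [NeZero n] (T : Finset (ZMod n)) (hne : T.Nonempty)
    (h : ∀ t ∈ T, t + 1 ∈ T) : T = univ := by
  obtain ⟨t0, ht0⟩ := hne
  have key : ∀ m : ℕ, t0 + (m : ZMod n) ∈ T := by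
    intro m
    induction m with
    | zero => simpa using ht0
    | succ m ih =>
      have := h _ ih
      push_cast
      rwa [← add_assoc]
  ext y
  simp only [mem_univ, iff_true]
  have := key (y - t0).val
  rw [ZMod.natCast_zmod_val] at this
  simpa using this

lemma blocks_nonempty {n k : ℕ} [NeZero n] (hk1 : 1 ≤ k) (hkn : k < n) (x : ZMod n) :
    (blocks n k x).Nonempty := by
  have step : ∀ z : ZMod n, (blocks n k z).Nonempty → (blocks n k (z + 1)).Nonempty := by
    rintro z ⟨T, hT⟩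
    unfold blocks at hT
    rw [mem_filter, mem_powersetCard] at hT
    obtain ⟨⟨_, hcard⟩, hsum⟩ := hT
    have hex : ∃ t ∈ T, t + 1 ∉ T := by
      by_contra hcon
      push Not at hcon
      have hu := closed_univ T (Finset.card_pos.mp (by omega)) hcon
      rw [hu, card_univ, ZMod.card] at hcard
      omega
    obtain ⟨t, ht, ht1⟩ := hex
    refine ⟨insert (t + 1) (T.erase t), ?_⟩
    have hnot : t + 1 ∉ T.erase t := fun h => ht1 (mem_of_mem_erase h)
    unfold blocks
    rw [mem_filter, mem_powersetCard]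
    refine ⟨⟨subset_univ _, ?_⟩, ?_⟩
    · rw [card_insert_of_notMem hnot, card_erase_of_mem ht, hcard]; omega
    · rw [sum_insert hnot, ← hsum, ← Finset.add_sum_erase T (fun t => t) ht]
      ring
  obtain ⟨T, hT1, hT2⟩ := Finset.exists_subset_card_eq (s := (univ : Finset (ZMod n))) (n := k)
    (by rw [card_univ, ZMod.card]; omega)
  have h0 : (blocks n k (∑ t ∈ T, t)).Nonempty :=
    ⟨T, by unfold blocks; rw [mem_filter, mem_powersetCard]; exact ⟨⟨hT1, hT2⟩, rfl⟩⟩
  have key : ∀ m : ℕ, (blocks n k (∑ t ∈ T, t + (m : ZMod n))).Nonempty := by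
    intro m
    induction m with
    | zero => simpa using h0
    | succ m ih =>
      have := step _ ih
      push_cast
      rwa [← add_assoc]
  have := key (x - ∑ t ∈ T, t).val
  rw [ZMod.natCast_zmod_val] at this
  simpa using this

lemma design_half {n k : ℕ} [NeZero n] (hk1 : 1 ≤ k) (hkn : 2 * k ≤ n) (x : ZMod n) :
    IsOneDesign n k x ↔ HalfCond n k x := by
  have hn0 : 0 < n := Nat.pos_of_ne_zero (NeZero.ne n)
  rw [← main_half hk1 hkn x, ← const_iff hk1 (by omega) x]
  unfold IsOneDesign deg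
  constructor
  · exact fun h => h.2
  · exact fun h => ⟨blocks_nonempty hk1 (by omega) x, h⟩

lemma compl_deg {n k : ℕ} [NeZero n] (hkn : k ≤ n) (x y : ZMod n) :
    ((blocks n (n - k) (∑ g : ZMod n, g - x)).filter (fun T => y ∈ T)).card
      + ((blocks n k x).filter (fun T => y ∈ T)).card = (blocks n k x).card := by
  have h1 := Finset.card_filter_add_card_filter_not (s := blocks n k x) (fun T => y ∈ T)
  have h2 : ((blocks n (n - k) (∑ g : ZMod n, g - x)).filter (fun T => y ∈ T)).card
      = ((blocks n k x).filter (fun T => ¬ y ∈ T)).card := by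
    apply Finset.card_nbij' (fun T => Tᶜ) (fun T => Tᶜ)
    · intro T hT
      unfold blocks at hT ⊢
      simp only [coe_filter, mem_filter, mem_powersetCard, Set.mem_setOf_eq] at hT ⊢
      obtain ⟨⟨⟨_, hc⟩, hs⟩, hy⟩ := hT
      refine ⟨⟨⟨subset_univ _, ?_⟩, ?_⟩, by simpa using hy⟩
      · rw [card_compl, ZMod.card, hc]; omega
      · have h3 := Finset.sum_add_sum_compl T (fun t : ZMod n => t)
        rw [hs] at h3
        linear_combination h3
    · intro T hT
      unfold blocks at hT ⊢
      simp only [coe_filter, mem_filter, mem_powersetCard, Set.mem_setOf_eq] at hT ⊢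
      obtain ⟨⟨⟨_, hc⟩, hs⟩, hy⟩ := hT
      refine ⟨⟨⟨subset_univ _, ?_⟩, ?_⟩, by simpa using hy⟩
      · rw [card_compl, ZMod.card, hc]
      · have h3 := Finset.sum_add_sum_compl T (fun t : ZMod n => t)
        rw [hs] at h3
        linear_combination h3
    · intro T _; simp
    · intro T _; simp
  omega

lemma design_compl {n k : ℕ} [NeZero n] (hk1 : 1 ≤ k) (hkn : k < n) (x : ZMod n) :
    IsOneDesign n k x → IsOneDesign n (n - k) (∑ g : ZMod n, g - x) := by
  rintro ⟨_, r, hr⟩
  refine ⟨blocks_nonempty (by omega) (by omega) _, (blocks n k x).card - r, fun y => ?_⟩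
  have h1 := compl_deg (by omega : k ≤ n) x y
  rw [hr y] at h1
  omega

theorem classification (n k : ℕ) [NeZero n] (_hn : 2 ≤ n) (hk : 1 ≤ k) (hkn : k ≤ n)
    (x : ZMod n) :
    IsOneDesign n k x ↔
      (k = n ∧ x = ∑ g : ZMod n, g) ∨
      (2 * k ≤ n ∧ HalfCond n k x) ∨
      (k < n ∧ n < 2 * k ∧ HalfCond n (n - k) (∑ g : ZMod n, g - x)) := by
  rcases Nat.lt_or_ge k n with hlt | hge
  · rcases Nat.lt_or_ge n (2 * k) with h2 | h2
    · have h3 : IsOneDesign n k x ↔ IsOneDesign n (n - k) (∑ g : ZMod n, g - x) := by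
        constructor
        · exact design_compl hk hlt x
        · intro h
          have h4 := design_compl (by omega) (by omega) _ h
          have e1 : n - (n - k) = k := by omega
          rw [e1, sub_sub_cancel] at h4
          exact h4
      rw [h3, design_half (by omega) (by omega)]
      constructor
      · intro h; exact Or.inr (Or.inr ⟨hlt, h2, h⟩)
      · rintro (h | h | h)
        · omega
        · omega
        · exact h.2.2
    · rw [design_half hk h2]
      constructor
      · intro h; exact Or.inr (Or.inl ⟨h2, h⟩)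
      · rintro (h | h | h)
        · omega
        · exact h.2
        · omega
  · have hke : k = n := by omega
    subst hke
    have hbl : ∀ T : Finset (ZMod k), T ∈ blocks k k x ↔ T = univ ∧ ∑ g : ZMod k, g = x := by
      intro T
      unfold blocks
      rw [mem_filter, mem_powersetCard]
      constructor
      · rintro ⟨⟨_, hc⟩, hs⟩
        have hT : T = univ := by
          apply Finset.eq_univ_of_card
          rw [hc, ZMod.card]
        exact ⟨hT, by rw [← hs, hT]⟩
      · rintro ⟨hT, hs⟩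
        rw [hT]
        exact ⟨⟨subset_univ _, by rw [card_univ, ZMod.card]⟩, hs⟩
    constructor
    · rintro ⟨⟨T, hT⟩, _⟩
      exact Or.inl ⟨rfl, ((hbl T).mp hT).2.symm⟩
    · rintro (h | h | h)
      · have hb1 : blocks k k x = {univ} := by
          ext T
          rw [hbl, mem_singleton]
          exact ⟨fun h' => h'.1, fun h' => ⟨h', h.2.symm⟩⟩
        refine ⟨by rw [hb1]; simp, 1, fun y => ?_⟩
        rw [hb1]
        rw [Finset.filter_singleton, if_pos (mem_univ y), card_singleton]
      · omega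
      · omega

end Pool.Agent.V11199.SD
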